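import Pool.Agent.Run7.h495.HM.A8
import Pool.Agent.TH279.DG.AE3
import Pool.Agent.R240.LL4

set_option autoImplicit false

/-! # Rates at almost every parameter -/

namespace Run7.h495.IR

open Complex Metric Set Filter Topology MeasureTheory Pool.Agent.H712R2 Pool.Agent.H713R2
open N62a1eb23
open Pool.Agent.Y736.HD (Ang vol_Ang_ne Ang_sub)
open Pool.Agent.TH279.DG (PP ae_ball)

/-- escape rate from a long bounded orbit -/
theorem log_le_of_bdd {d : ℕ} (hd : 2 ≤ d) {ψ : ℂ → ℂ} (hψ : IsExteriorMap (multibrotSet d) ψ)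
    {w : ℂ} (hw : 1 < ‖w‖) (h3 : ‖ψ w‖ ≤ 3) {n : ℕ} (h : ‖P d (n + 2) (ψ w)‖ ≤ 6) :
    Real.log ‖w‖ ≤ 2 * (1 / 2) ^ n := by
  have h1 : ‖P d (n + 1) (ψ w)‖ ≤ 3 := by
    by_contra hcon
    push Not at hcon
    have e1 : P d (n + 2) (ψ w) = P d (n + 1) (ψ w) ^ d + ψ w := P_succ d (n + 1) (ψ w)
    have e2 : ‖P d (n + 1) (ψ w) ^ d‖ ≤ ‖P d (n + 2) (ψ w)‖ + ‖ψ w‖ := by
      have := norm_sub_le (P d (n + 2) (ψ w)) (ψ w)
      rwa [e1, add_sub_cancel_right, ← e1] at this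
    rw [norm_pow] at e2
    have e3 : ‖P d (n + 1) (ψ w)‖ ^ 2 ≤ ‖P d (n + 1) (ψ w)‖ ^ d :=
      pow_le_pow_right₀ (by linarith) hd
    nlinarith
  have h2 := Run7.h495.HM.green_lower3 hd hψ hw h3 h1
  have hw0 : 0 < ‖w‖ := by linarith
  have h4 := Real.log_le_log (by positivity) h2
  rw [Real.log_pow] at h4
  have h5 : Real.log 4 ≤ 2 := by
    have : Real.log 4 = 2 * Real.log 2 := by
      rw [show (4 : ℝ) = 2 ^ 2 by norm_num, Real.log_pow]; norm_num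
    have := Real.log_two_lt_d9
    linarith
  have h6 : (2 : ℝ) ^ n ≤ ((d ^ n : ℕ) : ℝ) := by
    push_cast
    exact pow_le_pow_left₀ (by norm_num) (by exact_mod_cast hd) n
  have h7 : 0 ≤ Real.log ‖w‖ := Real.log_nonneg hw.le
  have h8 : (2 : ℝ) ^ n * Real.log ‖w‖ ≤ 2 := (mul_le_mul_of_nonneg_right h6 h7).trans (h4.trans h5)
  rw [one_div, inv_pow, ← div_eq_mul_inv, le_div_iff₀ (by positivity)]
  linarith

theorem asym (a b : ℝ) (hab : a < b) (hb : 0 < b) (A B ε : ℝ) (hε : 0 < ε) :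
    ∀ᶠ x : ℝ in atTop, A * x ^ a + B ≤ ε * x ^ b := by
  have h1 : Tendsto (fun x : ℝ => A * x ^ (-(b - a)) + B * x ^ (-b)) atTop (𝓝 (A * 0 + B * 0)) :=
    ((tendsto_rpow_neg_atTop (by linarith : 0 < b - a)).const_mul A).add
      ((tendsto_rpow_neg_atTop hb).const_mul B)
  rw [mul_zero, mul_zero, add_zero] at h1
  filter_upwards [h1.eventually (gt_mem_nhds hε), eventually_ge_atTop 1] with x hx hx1
  have hx0 : 0 < x := by linarith
  have hxb : 0 < x ^ b := Real.rpow_pos_of_pos hx0 b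
  have h2 := mul_le_mul_of_nonneg_right hx.le hxb.le
  have e1 : x ^ (-(b - a)) * x ^ b = x ^ a := by
    rw [← Real.rpow_add hx0]; congr 1; ring
  have e2 : x ^ (-b) * x ^ b = 1 := by
    rw [← Real.rpow_add hx0]; simp
  calc A * x ^ a + B = (A * x ^ (-(b - a)) + B * x ^ (-b)) * x ^ b := by
        rw [add_mul, mul_assoc, mul_assoc, e1, e2, mul_one]
    _ ≤ _ := h2

/-- parameters around which long orbits stay bounded in discs of radius `exp (-n ^ β)` -/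
def Calm (d : ℕ) (c : ℂ) : Prop :=
  ∀ β : ℝ, 1 / 2 < β → ∀ᶠ n : ℕ in atTop, ∀ c' ∈ ball c (Real.exp (-(n : ℝ) ^ β)), ∀ k ≤ n,
    ‖PP d k c'‖ ≤ 6

theorem tendsto_log_inv : Tendsto (fun r : ℝ => Real.log (1 / r)) (𝓝[>] 0) atTop := by
  have h1 : Tendsto (fun r : ℝ => 1 / r) (𝓝[>] 0) atTop := by
    simpa using tendsto_inv_nhdsGT_zero (𝕜 := ℝ)
  exact Real.tendsto_log_atTop.comp h1

theorem green_rate {d : ℕ} (hd : 2 ≤ d) {c : ℂ} (hc : c ∈ multibrotSet d) (h : Calm d c)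
    {γ : ℝ} (hγ : γ < 2) {C : ℝ} (hC : 0 < C) :
    ∀ᶠ r : ℝ in 𝓝[>] 0, ∀ ψ : ℂ → ℂ, IsExteriorMap (multibrotSet d) ψ → ∀ w : ℂ, 1 < ‖w‖ →
      ‖ψ w - c‖ ≤ 4 * r → Real.log ‖w‖ ≤ C * Real.exp (-(Real.log (1 / r)) ^ γ) := by
  have hc2 : ‖c‖ ≤ 2 := by
    have h1 := (mem_multibrot_iff hd c).1 hc 1
    rwa [P_one hd] at h1
  obtain ⟨g, hg⟩ : ∃ g, g = max γ 1 := ⟨_, rfl⟩
  have hg1 : 1 ≤ g := by rw [hg]; exact le_max_right _ _
  have hgγ : γ ≤ g := by rw [hg]; exact le_max_left _ _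
  have hg2 : g < 2 := by rw [hg]; exact max_lt hγ (by norm_num)
  obtain ⟨γ1, hγ1, hγ1'⟩ := exists_between hg2
  obtain ⟨γ2, hγ2, hγ2'⟩ := exists_between hγ1'
  have hγ10 : 0 < γ1 := by linarith
  have hγ20 : 0 < γ2 := by linarith
  have hβ : 1 / 2 < 1 / γ2 := one_div_lt_one_div_of_lt hγ20 hγ2'
  have hθ : γ1 * (1 / γ2) < 1 := by
    rw [mul_one_div, div_lt_one hγ20]; exact hγ2
  have hx := tendsto_log_inv
  have hn : Tendsto (fun r : ℝ => ⌊(Real.log (1 / r)) ^ γ1⌋₊) (𝓝[>] 0) atTop :=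
    (tendsto_nat_floor_atTop (α := ℝ)).comp ((tendsto_rpow_atTop hγ10).comp hx)
  have e1 := hn.eventually (h (1 / γ2) hβ)
  have e2 := hn.eventually (eventually_ge_atTop 2)
  have e3 := hx.eventually (asym (γ1 * (1 / γ2)) 1 hθ one_pos 1 (Real.log 4 + 1) 1 one_pos)
  have e4 := hx.eventually (asym g γ1 hγ1 hγ10 1 (Real.log 16 - Real.log C) (Real.log 2)
    (Real.log_pos (by norm_num)))
  have e5 := hx.eventually (eventually_ge_atTop 1)
  have e6 : ∀ᶠ r : ℝ in 𝓝[>] 0, r < 1 / 4 :=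
    (eventually_lt_nhds (by norm_num : (0 : ℝ) < 1 / 4)).filter_mono nhdsWithin_le_nhds
  filter_upwards [e1, e2, e3, e4, e5, e6, self_mem_nhdsWithin] with r h1 h2 h3 h4 h5 h6 hr ψ hψ w hw
    hwr
  have hr0 : 0 < r := hr
  obtain ⟨x, hxr⟩ : ∃ x, x = Real.log (1 / r) := ⟨_, rfl⟩
  rw [← hxr] at h1 h2 h3 h4 h5 ⊢
  have hx0 : 0 < x := by linarith
  have hrx : r = Real.exp (-x) := by
    rw [hxr, one_div, Real.log_inv, neg_neg, Real.exp_log hr0]
  obtain ⟨n, hn⟩ : ∃ n, n = ⌊x ^ γ1⌋₊ := ⟨_, rfl⟩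
  rw [← hn] at h1 h2
  have hxg : 0 ≤ x ^ γ1 := (Real.rpow_pos_of_pos hx0 _).le
  have hnx : (n : ℝ) ≤ x ^ γ1 := by rw [hn]; exact Nat.floor_le hxg
  have hnx' : x ^ γ1 < n + 1 := by rw [hn]; exact Nat.lt_floor_add_one _
  have hnb : (n : ℝ) ^ (1 / γ2) ≤ x ^ (γ1 * (1 / γ2)) := by
    rw [Real.rpow_mul hx0.le]
    exact Real.rpow_le_rpow (by positivity) hnx (by positivity)
  have hball : ψ w ∈ ball c (Real.exp (-(n : ℝ) ^ (1 / γ2))) := by
    rw [mem_ball, dist_eq_norm]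
    refine lt_of_le_of_lt hwr ?_
    have h7 : 4 * r = Real.exp (Real.log 4 - x) := by
      rw [Real.exp_sub, Real.exp_log (by norm_num), hrx, Real.exp_neg]; rfl
    rw [h7]
    apply Real.exp_lt_exp.2
    rw [Real.rpow_one] at h3
    linarith
  obtain ⟨m, rfl⟩ : ∃ m, n = m + 2 := ⟨n - 2, by omega⟩
  have h8 := h1 (ψ w) hball (m + 2) le_rfl
  have h9 : ‖ψ w‖ ≤ 3 := by
    have := norm_add_le (ψ w - c) c
    rw [sub_add_cancel] at this
    linarith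
  have h10 := log_le_of_bdd hd hψ hw h9 (n := m) h8
  refine h10.trans ?_
  have h11 : (2 : ℝ) * (1 / 2) ^ m ≤ Real.exp (Real.log 16 - Real.log 2 * x ^ γ1) := by
    have h12 : ((1 : ℝ) / 2) ^ m = Real.exp (-(Real.log 2 * m)) := by
      rw [one_div, inv_pow, Real.exp_neg, mul_comm, ← Real.rpow_natCast 2 m,
        Real.rpow_def_of_pos (by norm_num)]
      ring_nf
    rw [h12, show (2 : ℝ) * Real.exp (-(Real.log 2 * m)) = Real.exp (Real.log 2 - Real.log 2 * m) by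
      rw [sub_eq_add_neg, Real.exp_add, Real.exp_log (by norm_num)]]
    apply Real.exp_le_exp.2
    have h13 : Real.log 16 = 4 * Real.log 2 := by
      rw [show (16 : ℝ) = 2 ^ 4 by norm_num, Real.log_pow]; norm_num
    have h14 : 0 < Real.log 2 := Real.log_pos (by norm_num)
    push_cast at hnx'
    have h15 := mul_le_mul_of_nonneg_left hnx'.le h14.le
    rw [h13]
    linarith
  refine h11.trans ?_
  have h16 : C * Real.exp (-x ^ γ) = Real.exp (Real.log C - x ^ γ) := by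
    rw [sub_eq_add_neg, Real.exp_add, Real.exp_log hC]
  rw [h16]
  apply Real.exp_le_exp.2
  have h17 : x ^ γ ≤ x ^ g := Real.rpow_le_rpow_of_exponent_le h5 hgγ
  linarith

/-- harmonic measure, Green's function and the number of centres at calm parameters -/
theorem rates {d : ℕ} (hd : 2 ≤ d) {c : ℂ} (hc : c ∈ multibrotSet d) (h : Calm d c) {ψ : ℂ → ℂ}
    (hψ : IsExteriorMap (multibrotSet d) ψ) {γ : ℝ} (hγ : γ < 2) :
    ∀ᶠ r : ℝ in 𝓝[>] 0,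
      (volume (Ang ψ c r)).toReal ≤ Real.exp (-(Real.log (1 / r)) ^ γ) ∧
      (∀ w : ℂ, 1 < ‖w‖ → ‖ψ w - c‖ ≤ r → Real.log ‖w‖ ≤ Real.exp (-(Real.log (1 / r)) ^ γ)) ∧
      ∀ N : ℕ, (Pool.Agent.R240.LL.nz d N c r : ℝ) ≤
        (d : ℝ) ^ N * Real.exp (-(Real.log (1 / r)) ^ γ) +
          Pool.Agent.R240.LL.KL * (N + 1 : ℕ) * Real.log d := by
  have hpi := Real.pi_gt_three
  have hl : 0 < Real.log 2 := Real.log_pos (by norm_num)
  have hl1 : Real.log 2 < 1 := by linarith [Real.log_two_lt_d9]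
  have hC : 0 < Real.log 2 / (2 * Real.pi) := by positivity
  have hC1 : Real.log 2 / (2 * Real.pi) ≤ 1 := by
    rw [div_le_one (by positivity)]; linarith
  filter_upwards [green_rate hd hc h hγ hC, self_mem_nhdsWithin] with r h1 hr
  have hr0 : 0 < r := hr
  obtain ⟨E, hE⟩ : ∃ E, E = Real.exp (-(Real.log (1 / r)) ^ γ) := ⟨_, rfl⟩
  have hE0 : 0 < E := by rw [hE]; exact Real.exp_pos _
  have h2 := h1 ψ hψ
  rw [← hE] at h2 ⊢
  have hv : ∀ s : ℝ, 0 < s → s ≤ 2 * r → (volume (Ang ψ c s)).toReal ≤ E := by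
    intro s hs hs2
    have h3 := Pool.Agent.Y736.HG.vol_le hd hψ hc hs (S := Real.log 2 / (2 * Real.pi) * E)
      (by positivity) (fun w hw hwr => h2 w hw (by linarith))
    refine h3.trans (le_of_eq ?_)
    field_simp
  refine ⟨hv r hr0 (by linarith), ?_, ?_⟩
  · intro w hw hwr
    have h4 := h2 w hw (by linarith)
    have h5 : Real.log 2 / (2 * Real.pi) * E ≤ 1 * E := mul_le_mul_of_nonneg_right hC1 hE0.le
    linarith
  · intro N
    have h7 := (Pool.Agent.R240.LL.law hd hψ hc N hr0 one_pos le_rfl).1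
    rw [div_one, show (1 + 1) * r = 2 * r by ring] at h7
    refine h7.trans ?_
    gcongr
    rw [div_le_iff₀ (by positivity)]
    have h8 := hv (2 * r) (by positivity) le_rfl
    nlinarith

/-- the boundary map moves fast at calm parameters -/
theorem loop {d : ℕ} (hd : 2 ≤ d) {c : ℂ} (hc : c ∈ multibrotSet d) (h : Calm d c) {ψ : ℂ → ℂ}
    (hψ : IsExteriorMap (multibrotSet d) ψ) {F : ℂ → ℂ} (hF : ContinuousOn F {w | 1 ≤ ‖w‖})
    (hE : ∀ w, 1 < ‖w‖ → F w = ψ w) {ζ : ℂ} (hζ : ‖ζ‖ = 1) (hFζ : F ζ = c) {β : ℝ}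
    (hβ : 1 / 2 < β) :
    ∀ᶠ δ : ℝ in 𝓝[>] 0, ∃ ξ : ℂ, ‖ξ‖ = 1 ∧ ‖ξ - ζ‖ ≤ δ ∧
      Real.exp (-(Real.log (1 / δ)) ^ β) ≤ ‖F ξ - F ζ‖ := by
  have hβ0 : 0 < β := by linarith
  have h1β : 1 / β < 2 := by
    rw [div_lt_iff₀ hβ0]; linarith
  obtain ⟨γ, hγ1, hγ2⟩ := exists_between h1β
  have hβγ : 1 < β * γ := by
    rw [div_lt_iff₀ hβ0] at hγ1; linarith
  have hr : Tendsto (fun δ : ℝ => Real.exp (-(Real.log (1 / δ)) ^ β)) (𝓝[>] 0) (𝓝[>] 0) := by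
    refine tendsto_nhdsWithin_iff.2 ⟨?_, Eventually.of_forall fun δ => Real.exp_pos _⟩
    exact Real.tendsto_exp_neg_atTop_nhds_zero.comp ((tendsto_rpow_atTop hβ0).comp tendsto_log_inv)
  filter_upwards [hr.eventually (rates hd hc h hψ hγ2),
    tendsto_log_inv.eventually (eventually_gt_atTop 1), self_mem_nhdsWithin] with δ h1 h2 hδ
  have hδ0 : 0 < δ := hδ
  obtain ⟨y, hy⟩ : ∃ y, y = Real.log (1 / δ) := ⟨_, rfl⟩
  rw [← hy] at h1 h2 ⊢
  have hδy : δ = Real.exp (-y) := by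
    rw [hy, one_div, Real.log_inv, neg_neg, Real.exp_log hδ0]
  have hδ1 : δ ≤ 1 := by
    rw [hδy]; exact Real.exp_le_one_iff.2 (by linarith)
  by_contra hcon
  push Not at hcon
  have h3 := Run7.h495.HM.loop_gen hF hE hζ hFζ hδ0 hδ1 hcon
  have h4 := h3.trans h1.1
  have h5 : Real.log (1 / Real.exp (-y ^ β)) = y ^ β := by
    rw [one_div, Real.log_inv, Real.log_exp, neg_neg]
  rw [h5, ← Real.rpow_mul (by linarith), hδy] at h4
  have h6 := Real.exp_le_exp.1 h4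
  have h7 : y ^ (1 : ℝ) < y ^ (β * γ) := Real.rpow_lt_rpow_of_exponent_lt h2 hβγ
  rw [Real.rpow_one] at h7
  linarith

/-- almost every parameter is calm -/
theorem calm_ae {d : ℕ} (hd : 2 ≤ d) : volume {c : ℂ | c ∈ multibrotSet d ∧ ¬ Calm d c} = 0 := by
  have h1 := ae_ball (d := d) hd
  rw [ae_restrict_iff' (Pool.Agent.H637R4.PO.t_CLO d hd).measurableSet, ae_iff] at h1
  refine measure_mono_null ?_ h1
  rintro c ⟨hc, h2⟩ h3
  exact h2 (h3 hc)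

end Run7.h495.IR
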